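import Pool.Agent.W593.ZT.Stm

set_option autoImplicit false

/-! ZT-TDIR: a triangle without bad subgroups. -/

open scoped Classical

namespace Pool.Agent.W271.ZT

open Pool.Agent.W593.ZT

theorem mk_eq_iff {G : Type} [AddCommGroup G] (R : AddSubgroup G) (x y : G) :
    ((QuotientAddGroup.mk x : G ⧸ R) = QuotientAddGroup.mk y) ↔ x - y ∈ R :=
  QuotientAddGroup.eq_iff_sub_mem

theorem ncl_bot {G : Type} [AddCommGroup G] (A : Finset G) :
    ncl (⊥ : AddSubgroup G) A = A.card := by
  unfold ncl
  apply Finset.card_image_of_injective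
  intro x y h
  have h2 := (mk_eq_iff ⊥ x y).1 h
  rw [AddSubgroup.mem_bot] at h2
  exact sub_eq_zero.1 h2

theorem two_le_ncl {G : Type} [AddCommGroup G] (R : AddSubgroup G) (A : Finset G)
    (h : ¬ Tc R A) : 2 ≤ ncl R A := by
  unfold Tc at h
  push Not at h
  obtain ⟨x, hx, y, hy, hxy⟩ := h
  unfold ncl
  have : 1 < (A.image (fun x => (QuotientAddGroup.mk x : G ⧸ R))).card := by
    rw [Finset.one_lt_card]
    refine ⟨_, Finset.mem_image_of_mem _ hx, _, Finset.mem_image_of_mem _ hy, ?_⟩
    intro h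
    exact hxy ((mk_eq_iff R x y).1 h)
  exact this

theorem sum_erase_third {V G : Type} [AddCommGroup G] (f : V → G) {a b g : V} (hab : a ≠ b)
    (hag : a ≠ g) (hbg : b ≠ g) (T : Finset V) (hT : ∀ z, z ∈ T ↔ z = a ∨ z = b ∨ z = g) :
    ∑ h ∈ T.erase g, f h = f a + f b := by
  have : T.erase g = {a, b} := by
    ext z
    rw [Finset.mem_erase, hT, Finset.mem_insert, Finset.mem_singleton]
    constructor
    · rintro ⟨h1, h2 | h2 | h2⟩
      · exact Or.inl h2
      · exact Or.inr h2
      · exact absurd h2 h1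
    · rintro (h | h)
      · exact ⟨h ▸ hag, Or.inl h⟩
      · exact ⟨h ▸ hbg, Or.inr (Or.inl h)⟩
  rw [this, Finset.sum_pair hab]

theorem tdir (hK2 : S_K2) (hTREE : S_TREE) : S_TDIR := by
  intro V G _ _ _ c hc T hT3 htri hR
  obtain ⟨u, v, w, huv, huw, hvw, rfl⟩ := Finset.card_eq_three.1 hT3
  set T : Finset V := {u, v, w} with hTdef
  have hmem : ∀ z, z ∈ T ↔ z = u ∨ z = v ∨ z = w := by
    intro z
    rw [hTdef, Finset.mem_insert, Finset.mem_insert, Finset.mem_singleton]
  set sg : G := c u v + c u w + c v w with hsg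
  have hsym := hc.sym
  -- the third vertex
  have hthird : ∀ x ∈ Tri c T, ∃ g ∈ T, sg - x = ∑ h ∈ T.erase g, c h g := by
    intro x hx
    unfold Tri at hx
    rw [Finset.mem_image] at hx
    obtain ⟨⟨e1, e2⟩, he, rfl⟩ := hx
    rw [Finset.mem_filter, Finset.mem_product, hmem, hmem] at he
    obtain ⟨⟨h1, h2⟩, hne⟩ := he
    simp only at h1 h2 hne ⊢
    have hw' : ∑ h ∈ T.erase w, c h w = c u w + c v w :=
      sum_erase_third (fun h => c h w) huv huw hvw T hmem
    have hv' : ∑ h ∈ T.erase v, c h v = c u v + c w v :=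
      sum_erase_third (fun h => c h v) huw huv hvw.symm T (fun z => by rw [hmem z]; tauto)
    have hu' : ∑ h ∈ T.erase u, c h u = c v u + c w u :=
      sum_erase_third (fun h => c h u) hvw huv.symm huw.symm T (fun z => by rw [hmem z]; tauto)
    have huT : u ∈ T := (hmem u).2 (Or.inl rfl)
    have hvT : v ∈ T := (hmem v).2 (Or.inr (Or.inl rfl))
    have hwT : w ∈ T := (hmem w).2 (Or.inr (Or.inr rfl))
    have case_w : ∃ g ∈ T, sg - c u v = ∑ h ∈ T.erase g, c h g :=
      ⟨w, hwT, by rw [hw', hsg]; abel⟩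
    have case_v : ∃ g ∈ T, sg - c u w = ∑ h ∈ T.erase g, c h g :=
      ⟨v, hvT, by rw [hv', hsg, hsym w v]; abel⟩
    have case_u : ∃ g ∈ T, sg - c v w = ∑ h ∈ T.erase g, c h g :=
      ⟨u, huT, by rw [hu', hsg, hsym v u, hsym w u]; abel⟩
    rcases h1 with rfl | rfl | rfl <;> rcases h2 with rfl | rfl | rfl
    · exact absurd rfl hne
    · exact case_w
    · exact case_v
    · rw [hsym]; exact case_w
    · exact absurd rfl hne
    · exact case_u
    · rw [hsym]; exact case_v
    · rw [hsym]; exact case_u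
    · exact absurd rfl hne
  -- the family
  set Z : Finset (Option V) := Finset.insertNone (Finset.univ \ T) with hZ
  set A : Option V → Finset G := fun o =>
    match o with
    | none => (Tri c T).image (fun x => sg - x)
    | some z => Cs c T z with hA
  have hTne : T.Nonempty := ⟨u, (hmem u).2 (Or.inl rfl)⟩
  have hAne : ∀ z, (A z).Nonempty := by
    intro z
    rcases z with _ | z
    · refine Finset.Nonempty.image ?_ _
      rw [← Finset.card_pos]
      omega
    · exact Finset.Nonempty.image hTne _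
  have hcardA : (A none).card = (Tri c T).card :=
    Finset.card_image_of_injective _ (fun x y h => by simpa using h)
  have hcardT : (Finset.univ \ T).card + 3 = Fintype.card V := by
    have := Finset.card_sdiff_add_card_eq_card (Finset.subset_univ T)
    rw [hT3, Finset.card_univ] at this
    exact this
  have hsum : ∀ R : AddSubgroup G, ⊥ ≤ R → R < ⊤ →
      R.relIndex ⊤ ≤ 1 + ∑ z ∈ Z, (ncl R (A z) - 1) := by
    intro R _ hRT
    rw [AddSubgroup.relIndex_top_right, hZ, Finset.sum_insertNone]
    by_cases hRb : R = ⊥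
    · subst hRb
      rw [AddSubgroup.index_bot, Nat.card_eq_fintype_card, ncl_bot, hcardA]
      have h1 : (Finset.univ \ T).card ≤ n1 c T + ∑ z ∈ Finset.univ \ T,
          (ncl (⊥ : AddSubgroup G) (A (some z)) - 1) := by
        unfold n1
        rw [Finset.card_filter, ← Finset.sum_add_distrib, Finset.card_eq_sum_ones]
        refine Finset.sum_le_sum fun z _ => ?_
        rw [ncl_bot]
        have h2 : 1 ≤ (A (some z)).card := Finset.card_pos.2 (hAne (some z))
        have h3 : (A (some z)).card = (Cs c T z).card := rfl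
        split_ifs with h4
        · omega
        · omega
      have hcc := hc.card
      omega
    · have h1 := hR R hRb hRT.ne
      have h2 : (nc c R Finset.univ T).card ≤ ∑ z ∈ Finset.univ \ T,
          (ncl R (A (some z)) - 1) := by
        rw [Finset.card_eq_sum_ones]
        refine le_trans (Finset.sum_le_sum (fun z hz => ?_))
          (Finset.sum_le_sum_of_subset (Finset.filter_subset _ _))
        have h3 : ¬ Tc R (Cs c T z) := (Finset.mem_filter.1 hz).2
        have h4 := two_le_ncl R _ h3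
        have h5 : ncl R (A (some z)) = ncl R (Cs c T z) := rfl
        omega
      omega
  obtain ⟨Z', hZ', _, hcov⟩ := hK2 (Option V) G ⊥ ⊤ bot_le Z A
    (fun z _ => ⟨hAne z, fun _ _ _ _ => AddSubgroup.mem_top _⟩) hsum
  choose r0 hr0 using hAne
  obtain ⟨r', ⟨r, hr, hr'⟩, hs⟩ := hcov r0 (fun z _ => hr0 z) (-∑ z ∈ Z \ Z', r0 z)
    (AddSubgroup.mem_top _)
  rw [AddSubgroup.mem_bot] at hs
  -- the full choice
  set q : Option V → G := fun z => if z ∈ Z' then r z else r0 z with hq
  have hqA : ∀ z, q z ∈ A z := by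
    intro z
    by_cases h : z ∈ Z'
    · have : q z = r z := if_pos h
      rw [this]; exact hr z h
    · have : q z = r0 z := if_neg h
      rw [this]; exact hr0 z
  have hqsum : ∑ z ∈ Z, q z = 0 := by
    rw [← Finset.sum_sdiff hZ']
    have e1 : ∑ z ∈ Z \ Z', q z = ∑ z ∈ Z \ Z', r0 z :=
      Finset.sum_congr rfl fun z hz => if_neg (Finset.mem_sdiff.1 hz).2
    have e2 : ∑ z ∈ Z', q z = ∑ z ∈ Z', r z := Finset.sum_congr rfl fun z hz => if_pos hz
    rw [e1, e2, ← hr']
    have : r' = -∑ z ∈ Z \ Z', r0 z := (sub_eq_zero.1 hs).symm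
    rw [this]; abel
  have hnone : q none ∈ (Tri c T).image (fun x => sg - x) := hqA none
  rw [Finset.mem_image] at hnone
  obtain ⟨x, hx, hxq⟩ := hnone
  obtain ⟨g, hg, hgx⟩ := hthird x hx
  refine hc.not (hTREE V G c hsym T g (fun z => q (some z)) hg (fun z _ => hqA (some z)) ?_)
  rw [← hgx, hxq]
  rw [hZ, Finset.sum_insertNone] at hqsum
  rw [add_comm]
  exact hqsum

end Pool.Agent.W271.ZT
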